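import Pool.Agent.K1H77.CG.Stm

/-! # Whitehead moves on unlabelled cubic graphs: no small dense sets -/

set_option autoImplicit false

open Finset Filter Topology

namespace Pool.Agent.K1H38.CG

open Pool.Agent.K1H77.CG

/-- a closed set with at least `2 m` elements contains a closed set with `2 m` elements -/
lemma sub_closed {α : Type} [DecidableEq α] (M : Equiv.Perm α) (hM : IsMat M) (E : Finset α)
    (hE : ∀ x ∈ E, M x ∈ E) : ∀ m : ℕ, 2 * m ≤ E.card →
    ∃ F : Finset α, F ⊆ E ∧ F.card = 2 * m ∧ ∀ x ∈ F, M x ∈ F := by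
  intro m
  induction m with
  | zero => intro _; exact ⟨∅, by simp, by simp, by simp⟩
  | succ m ih =>
    intro h
    obtain ⟨F, hFE, hFc, hF⟩ := ih (by omega)
    have hne : ∃ x ∈ E, x ∉ F := by
      by_contra hcon
      push Not at hcon
      have : E.card ≤ F.card := Finset.card_le_card hcon
      omega
    obtain ⟨x, hxE, hxF⟩ := hne
    have hMx : M x ∉ F := by
      intro h1
      have := hF _ h1
      rw [hM.1] at this
      exact hxF this
    refine ⟨insert x (insert (M x) F), ?_, ?_, ?_⟩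
    · intro y hy
      simp only [Finset.mem_insert] at hy
      rcases hy with rfl | rfl | hy
      · exact hxE
      · exact hE _ hxE
      · exact hFE hy
    · have h1 : x ∉ insert (M x) F := by
        simp only [Finset.mem_insert, not_or]
        exact ⟨fun h => hM.2 x h.symm, hxF⟩
      rw [Finset.card_insert_of_notMem h1, Finset.card_insert_of_notMem hMx, hFc]
      ring
    · intro y hy
      simp only [Finset.mem_insert] at hy ⊢
      rcases hy with rfl | rfl | hy
      · exact Or.inr (Or.inl rfl)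
      · exact Or.inl (hM.1 _)
      · exact Or.inr (Or.inr (hF y hy))

open Classical in
/-- the closed sets which have to be considered -/
lemma bad_sub (R n : ℕ) :
    (Mat (HE n)).filter (fun M => ¬ NoDense R M) ⊆
      (range (R + 1)).biUnion (fun v =>
        (powersetCard v (univ : Finset (Fin n))).biUnion (fun U =>
          (powersetCard (2 * v + 2) (U ×ˢ (univ : Finset (Fin 3)))).biUnion (fun F =>
            (Mat (HE n)).filter (fun M => ∀ x ∈ F, M x ∈ F)))) := by
  intro M hM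
  rw [Finset.mem_filter] at hM
  obtain ⟨hM1, hM2⟩ := hM
  have hmat := mem_Mat.1 hM1
  unfold NoDense at hM2
  push Not at hM2
  obtain ⟨U, hU, hc⟩ := hM2
  have hcl : ∀ x ∈ (univ.filter (fun h : HE n => h.1 ∈ U ∧ (M h).1 ∈ U)),
      M x ∈ (univ.filter (fun h : HE n => h.1 ∈ U ∧ (M h).1 ∈ U)) := by
    intro x hx
    simp only [Finset.mem_filter, Finset.mem_univ, true_and] at hx ⊢
    rw [hmat.1]
    exact ⟨hx.2, hx.1⟩
  obtain ⟨F, hFE, hFc, hF⟩ := sub_closed M hmat _ hcl (U.card + 1) hc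
  simp only [Finset.mem_biUnion]
  refine ⟨U.card, by simpa using Nat.lt_succ_of_le hU, U, by simp [Finset.mem_powersetCard], F, ?_, ?_⟩
  · rw [Finset.mem_powersetCard]
    refine ⟨?_, by rw [hFc]; ring⟩
    intro x hx
    have := hFE hx
    simp only [Finset.mem_filter, Finset.mem_univ, true_and] at this
    exact Finset.mem_product.2 ⟨this.1, Finset.mem_univ _⟩
  · rw [Finset.mem_filter]
    exact ⟨hM1, hF⟩

open Classical in
lemma bad_card (h1 : S_CLOS) (R n : ℕ) :
    ((Mat (HE n)).filter (fun M => ¬ NoDense R M)).card ≤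
      ∑ v ∈ range (R + 1), n ^ v * (2 ^ (3 * v) * (fm (2 * v + 2) * fm (n * 3 - (2 * v + 2)))) := by
  refine (Finset.card_le_card (bad_sub R n)).trans ?_
  refine Finset.card_biUnion_le.trans (Finset.sum_le_sum fun v _ => ?_)
  have hU : (powersetCard v (univ : Finset (Fin n))).card ≤ n ^ v := by
    rw [Finset.card_powersetCard, Finset.card_univ, Fintype.card_fin]
    exact Nat.choose_le_pow n v
  refine (Finset.card_biUnion_le_card_mul _ _ _ fun U hUm => ?_).trans
    (Nat.mul_le_mul_right _ hU)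
  have hUc : U.card = v := (Finset.mem_powersetCard.1 hUm).2
  have hF : (powersetCard (2 * v + 2) (U ×ˢ (univ : Finset (Fin 3)))).card ≤ 2 ^ (3 * v) := by
    rw [Finset.card_powersetCard, Finset.card_product, Finset.card_univ, Fintype.card_fin, hUc,
      mul_comm v 3]
    exact Nat.choose_le_two_pow _ _
  refine (Finset.card_biUnion_le_card_mul _ _ _ fun F hFm => ?_).trans
    (Nat.mul_le_mul_right _ hF)
  have hFc : F.card = 2 * v + 2 := (Finset.mem_powersetCard.1 hFm).2
  have := h1 (HE n) F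
  rw [hFc] at this
  have hc : Fintype.card (HE n) = n * 3 := by simp [HE]
  rw [hc] at this
  exact this

/-- the constant -/
noncomputable def CC (R : ℕ) : ℝ :=
  ∑ v ∈ range (R + 1), (16 : ℝ) ^ v * (fm (2 * v + 2)) * (2 / 3) ^ (v + 1)

lemma term_le (h2 : S_FMR) (k v : ℕ) (hk : 0 < k) (hv : v + 1 ≤ 3 * k) :
    ((2 * k : ℕ) : ℝ) ^ v * (2 ^ (3 * v) * ((fm (2 * v + 2) : ℝ) * fm (2 * k * 3 - (2 * v + 2)))) ≤
      ((16 : ℝ) ^ v * (fm (2 * v + 2)) * (2 / 3) ^ (v + 1)) * (fm (6 * k) / k) := by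
  have h := h2 (3 * k) (v + 1) hv
  have e1 : 2 * (3 * k - (v + 1)) = 2 * k * 3 - (2 * v + 2) := by omega
  have e2 : 2 * (3 * k) = 6 * k := by ring
  rw [e1, e2] at h
  have hk' : (0 : ℝ) < k := by exact_mod_cast hk
  have hp : (0 : ℝ) < (((3 * k : ℕ) : ℝ) / 2) ^ (v + 1) := by positivity
  have h3 : (fm (2 * k * 3 - (2 * v + 2)) : ℝ) ≤ fm (6 * k) / (((3 * k : ℕ) : ℝ) / 2) ^ (v + 1) := by
    rw [le_div_iff₀ hp]; exact h
  have h4 : (0 : ℝ) ≤ (fm (2 * v + 2) : ℝ) := Nat.cast_nonneg _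
  calc ((2 * k : ℕ) : ℝ) ^ v * (2 ^ (3 * v) * ((fm (2 * v + 2) : ℝ) * fm (2 * k * 3 - (2 * v + 2))))
      ≤ ((2 * k : ℕ) : ℝ) ^ v * (2 ^ (3 * v) * ((fm (2 * v + 2) : ℝ) *
          (fm (6 * k) / (((3 * k : ℕ) : ℝ) / 2) ^ (v + 1)))) := by gcongr
    _ = ((16 : ℝ) ^ v * (fm (2 * v + 2)) * (2 / 3) ^ (v + 1)) * (fm (6 * k) / k) := by
        push_cast
        have hk0 : (k : ℝ) ≠ 0 := hk'.ne'
        have e3 : (2 : ℝ) ^ (3 * v) = 8 ^ v := by rw [pow_mul]; norm_num
        have e4 : (3 * (k : ℝ) / 2) ^ (v + 1) = (3 / 2) ^ (v + 1) * k ^ v * k := by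
          rw [show (3 * (k : ℝ) / 2) = (3 / 2) * k by ring, mul_pow]; ring
        have e5 : (2 * (k : ℝ)) ^ v = 2 ^ v * k ^ v := mul_pow _ _ _
        have e6 : (16 : ℝ) ^ v = 2 ^ v * 8 ^ v := by rw [← mul_pow]; norm_num
        have e7 : ((2 : ℝ) / 3) ^ (v + 1) = ((3 / 2) ^ (v + 1))⁻¹ := by
          rw [← inv_pow]; norm_num
        rw [e3, e4, e5, e6, e7]
        field_simp

open Classical in
theorem t_DENS (h1 : S_CLOS) (h2 : S_FMR) : S_DENS := by
  intro R
  have hlim : Tendsto (fun k : ℕ => CC R * (1 / (k : ℝ))) atTop (𝓝 0) := by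
    have := (tendsto_one_div_atTop_nhds_zero_nat (𝕜 := ℝ)).const_mul (CC R)
    simpa using this
  refine squeeze_zero' (Eventually.of_forall fun k => by positivity) ?_ hlim
  filter_upwards [eventually_ge_atTop (R + 1)] with k hk
  have hk0 : 0 < k := by omega
  have hfm : (0 : ℝ) < fm (6 * k) := by
    have := fm_pos (3 * k)
    rw [show 2 * (3 * k) = 6 * k by ring] at this
    exact_mod_cast this
  rw [div_le_iff₀ hfm]
  have h3 := bad_card h1 R (2 * k)
  have h4 : ((((Mat (HE (2 * k))).filter (fun M => ¬ NoDense R M)).card : ℕ) : ℝ) ≤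
      ∑ v ∈ range (R + 1), ((2 * k : ℕ) : ℝ) ^ v *
        (2 ^ (3 * v) * ((fm (2 * v + 2) : ℝ) * fm (2 * k * 3 - (2 * v + 2)))) := by
    have : ((((Mat (HE (2 * k))).filter (fun M => ¬ NoDense R M)).card : ℕ) : ℝ) ≤
      ((∑ v ∈ range (R + 1), (2 * k) ^ v *
        (2 ^ (3 * v) * (fm (2 * v + 2) * fm (2 * k * 3 - (2 * v + 2)))) : ℕ) : ℝ) := by
      exact_mod_cast h3
    refine this.trans (le_of_eq ?_)
    push_cast
    rfl
  refine h4.trans ?_
  calc _ ≤ ∑ v ∈ range (R + 1), ((16 : ℝ) ^ v * (fm (2 * v + 2)) * (2 / 3) ^ (v + 1)) *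
        (fm (6 * k) / k) := by
        refine Finset.sum_le_sum fun v hv => ?_
        have : v < R + 1 := Finset.mem_range.1 hv
        exact term_le h2 k v hk0 (by omega)
    _ = CC R * (1 / (k : ℝ)) * fm (6 * k) := by
        rw [← Finset.sum_mul, CC]
        ring

end Pool.Agent.K1H38.CG
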